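import Mathlib

namespace Pool.Agent.Results.MP_af8c33_pr.Order

open Matrix Finset

def Q₀ : Matrix (Fin 20) (Fin 20) ℝ := fun i j =>
  (if j = i + 1 then 4 else 0) - if j = i then 4 else 0

def lam₀ (i : Fin 20) : ℝ := if (i : ℕ) < 10 then 1 else 0

def c (i : Fin 20) : ℕ := if (i : ℕ) < 10 then 0 else 4

def A : Matrix (Fin 20) (Fin 20) ℝ := fun i j =>
  (if j = i + 1 then 16 else 0) + if j = i then (c i : ℝ) else 0

def step (v : List ℕ) : List ℕ :=
  List.ofFn fun i : Fin 20 => 16 * v.getD (i + 1 : Fin 20) 0 + c i * v.getD i 0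

def w : ℕ → List ℕ
  | 0 => List.replicate 20 1
  | k + 1 => step (w k)

theorem w_eq (k : ℕ) : A ^ k *ᵥ 1 = fun i : Fin 20 => ((w k).getD i 0 : ℝ) := by
  induction k with
  | zero => funext i; fin_cases i <;> simp [w]
  | succ k ih =>
    funext i
    rw [pow_succ', ← mulVec_mulVec, ih, w, step, List.getD_eq_getElem _ _ (by simp),
      List.getElem_ofFn]
    simp [mulVec, dotProduct, A, add_mul, sum_add_distrib]

theorem w_le (k : ℕ) (i : Fin 20) : (w k).getD i 0 ≤ 20 ^ k := by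
  induction k generalizing i with
  | zero => fin_cases i <;> simp [w]
  | succ k ih =>
    rw [w, step, List.getD_eq_getElem _ _ (by simp), List.getElem_ofFn]
    have h1 := ih (i + 1)
    have h2 := Nat.mul_le_mul (show c i ≤ 4 by unfold c; split_ifs <;> omega) (ih i)
    simp only [Fin.eta]
    omega

def a (k : ℕ) : ℚ := (∑ i : Fin 20, (if (i : ℕ) < 10 then 1 else -1) * ((w k).getD i 0 : ℚ)) /
  k.factorial

theorem num : 40 * (20 ^ 45 / (Nat.factorial 45 : ℚ)) < ∑ k ∈ range 45, a k := by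
  decide +kernel

theorem a_bd (k : ℕ) : -(20 * (20 ^ 45 / (Nat.factorial 45 : ℝ)) * (1 / 2) ^ k) ≤ a (k + 45) := by
  have h1 : -(20 * (20 : ℝ) ^ (k + 45)) ≤
      ∑ i : Fin 20, (if (i : ℕ) < 10 then 1 else -1) * ((w (k + 45)).getD i 0 : ℝ) := by
    have : ∀ i ∈ (univ : Finset (Fin 20)), -(20 : ℝ) ^ (k + 45) ≤
        (if (i : ℕ) < 10 then 1 else -1) * ((w (k + 45)).getD i 0 : ℝ) := fun i _ => by
      have h : ((w (k + 45)).getD i 0 : ℝ) ≤ 20 ^ (k + 45) := by exact_mod_cast w_le _ i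
      have h' : (0 : ℝ) ≤ (w (k + 45)).getD i 0 := by positivity
      split_ifs <;> linarith
    have := card_nsmul_le_sum _ _ _ this
    simpa using this
  have h2 : (Nat.factorial 45 : ℝ) * 40 ^ k ≤ (k + 45).factorial := by
    have := (Nat.mul_le_mul_left (Nat.factorial 45) (Nat.pow_le_pow_left (by norm_num : 40 ≤ 45 + 1)
      k)).trans (Nat.factorial_mul_pow_le_factorial (m := 45) (n := k))
    rw [add_comm k]
    exact_mod_cast this
  have h3 : (20 : ℝ) ^ (k + 45) / (k + 45).factorial ≤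
      20 ^ 45 / (Nat.factorial 45 : ℝ) * (1 / 2) ^ k := by
    refine (div_le_div_of_nonneg_left (by positivity) (by positivity) h2).trans (le_of_eq ?_)
    rw [pow_add, show (40 : ℝ) = 20 * 2 by norm_num, mul_pow]
    field_simp
    rw [← mul_pow]
    norm_num
  unfold a
  push_cast [apply_ite ((↑) : ℚ → ℝ)]
  refine le_trans ?_ (div_le_div_of_nonneg_right h1 (by positivity))
  rw [neg_div, mul_div_assoc]
  linarith

theorem pos : 0 < ∑ i : Fin 20, (if (i : ℕ) < 10 then 1 else -1) *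
    (NormedSpace.exp A *ᵥ 1) i := by
  have h0 : HasSum (fun n : ℕ => ((n.factorial : ℝ)⁻¹) • A ^ n) (NormedSpace.exp A) := by
    let _ := Matrix.linftyOpNormedRing (α := ℝ) (n := Fin 20)
    let _ := Matrix.linftyOpNormedAlgebra (R := ℝ) (α := ℝ) (n := Fin 20)
    exact NormedSpace.exp_series_hasSum_exp' A
  have h1 : HasSum (fun k => (a k : ℝ)) (∑ i : Fin 20, (if (i : ℕ) < 10 then 1 else -1) *
      (NormedSpace.exp A *ᵥ 1) i) := by
    have := hasSum_sum (s := univ) fun (i : Fin 20) _ =>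
      (hasSum_sum (s := univ) fun (j : Fin 20) _ =>
        (Pi.hasSum.1 (Pi.hasSum.1 h0 i) j).mul_right ((1 : Fin 20 → ℝ) j)).mul_left
        (if (i : ℕ) < 10 then (1 : ℝ) else -1)
    have e : (fun k => (a k : ℝ)) = fun k => ∑ i : Fin 20, (if (i : ℕ) < 10 then (1 : ℝ) else -1) *
        ∑ j, (((k.factorial : ℝ)⁻¹) • A ^ k) i j * (1 : Fin 20 → ℝ) j := by
      funext k
      unfold a
      push_cast [apply_ite ((↑) : ℚ → ℝ)]
      rw [sum_div]
      refine sum_congr rfl fun i _ => ?_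
      rw [← congrFun (w_eq k) i, mul_div_assoc, div_eq_inv_mul, mulVec, dotProduct, mul_sum]
      simp only [Matrix.smul_apply, smul_eq_mul, mul_assoc]
    rw [e]
    exact this
  rw [← h1.tsum_eq, ← h1.summable.sum_add_tsum_nat_add 45]
  have h2 := (hasSum_geometric_two.mul_left (20 * (20 ^ 45 / (Nat.factorial 45 : ℝ)))).neg
  have h3 := hasSum_le a_bd h2 ((summable_nat_add_iff 45).2 h1.summable).hasSum
  have h4 : 40 * (20 ^ 45 / (Nat.factorial 45 : ℝ)) < ∑ k ∈ range 45, (a k : ℝ) := by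
    have := (Rat.cast_lt (K := ℝ)).2 num
    push_cast at this
    exact this
  linarith

theorem result : ∃ (p : ℕ) (Q : Matrix (Fin p) (Fin p) ℝ) (lam π : Fin p → ℝ) (t : ℝ),
    (∀ i j, i ≠ j → 0 ≤ Q i j) ∧ (∀ i, ∑ j, Q i j = 0) ∧
    (∀ i j, Relation.ReflTransGen (fun a b => a ≠ b ∧ 0 < Q a b) i j) ∧ (∀ i, 0 ≤ lam i) ∧
    lam ≠ 0 ∧ π ∈ stdSimplex ℝ (Fin p) ∧ π ᵥ* Q = 0 ∧ 0 ≤ t ∧
    π ᵥ* NormedSpace.exp (t • (Q - diagonal lam)) ⬝ᵥ 1 <
      ((π ᵥ* diagonal lam ⬝ᵥ 1)⁻¹ • (π ᵥ* diagonal lam)) ᵥ*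
        NormedSpace.exp (t • (Q - diagonal lam)) ⬝ᵥ 1 := by
  refine ⟨20, Q₀, lam₀, fun _ => 1 / 20, 4, fun i j h => ?_, fun i => ?_, fun i j => ?_,
    fun i => ?_, fun h => ?_, ⟨fun _ => by norm_num, by simp⟩, ?_, by norm_num, ?_⟩
  · rw [Q₀, if_neg h.symm]; split_ifs <;> norm_num
  · simp [Q₀, sum_sub_distrib]
  · have h : ∀ n : ℕ, Relation.ReflTransGen (fun a b => a ≠ b ∧ 0 < Q₀ a b) i
        ((· + 1)^[n] i) := fun n => by
      induction n with
      | zero => exact .refl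
      | succ n ih =>
        rw [Function.iterate_succ_apply']
        have h1 : ∀ a : Fin 20, a ≠ a + 1 := by decide
        exact ih.tail ⟨h1 _, by rw [Q₀, if_pos rfl, if_neg (h1 _).symm]; norm_num⟩
    have h2 : ∀ i j : Fin 20, ∃ n < 20, (· + 1)^[n] i = j := by decide +kernel
    obtain ⟨n, -, rfl⟩ := h2 i j
    exact h n
  · unfold lam₀; split_ifs <;> norm_num
  · simpa [lam₀] using congrFun h 0
  · funext j
    have : ∀ i, (j = i + 1) = (j - 1 = i) := fun i => propext sub_eq_iff_eq_add.symm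
    simp [vecMul, dotProduct, Q₀, ← mul_sum, sum_sub_distrib, this]
  have e1 : (4 : ℝ) • (Q₀ - diagonal lam₀) = A + diagonal fun _ => -20 := by
    ext i j
    simp only [Matrix.smul_apply, Matrix.sub_apply, Matrix.add_apply, Q₀, A, diagonal_apply, lam₀,
      c, smul_eq_mul, eq_comm (a := i)]
    split_ifs <;> norm_num
  have e2 : NormedSpace.exp (A + diagonal fun _ => -20) = Real.exp (-20) • NormedSpace.exp A := by
    have hc : Commute A (diagonal fun _ => -20) :=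
      (Matrix.scalar_commute (-20 : ℝ) (fun _ => Commute.all _ _) A).symm
    rw [Matrix.exp_add_of_commute _ _ hc, Matrix.exp_diagonal]
    ext i j
    simp [mul_diagonal, Pi.exp_def, Real.exp_eq_exp_ℝ, mul_comm]
  have e3 : (fun _ => 1 / 20 : Fin 20 → ℝ) ᵥ* diagonal lam₀ ⬝ᵥ 1 = 1 / 2 := by
    simp [vecMul_diagonal, dotProduct, lam₀, Fin.sum_univ_succ]
    norm_num
  rw [e1, e2, e3, ← sub_pos, ← dotProduct_mulVec, ← dotProduct_mulVec, ← sub_dotProduct,
    smul_mulVec, dotProduct_smul, smul_eq_mul]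
  refine mul_pos (Real.exp_pos _) (lt_of_lt_of_eq (mul_pos (by norm_num : (0 : ℝ) < 1 / 20) pos) ?_)
  rw [mul_sum, dotProduct]
  refine sum_congr rfl fun i _ => ?_
  simp only [Pi.sub_apply, Pi.smul_apply, vecMul_diagonal, lam₀, smul_eq_mul]
  split_ifs <;> ring

end Pool.Agent.Results.MP_af8c33_pr.Order
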