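import Mathlib

namespace Pool.Agent.Results.MP_af8c33_pr.Scv

open Matrix Finset

theorem result (p : ℕ) (Q : Matrix (Fin p) (Fin p) ℝ) (lam π : Fin p → ℝ)
    (hQ : ∀ i j, i ≠ j → 0 ≤ Q i j) (hrow : ∀ i, ∑ j, Q i j = 0) (hlam : ∀ i, 0 ≤ lam i)
    (hπ : π ∈ stdSimplex ℝ (Fin p)) (hst : π ᵥ* Q = 0) (hC : IsUnit (Q - diagonal lam).det) :
    1 ≤ (π ᵥ* (Q - diagonal lam) ⬝ᵥ 1) * (π ᵥ* (Q - diagonal lam)⁻¹ ⬝ᵥ 1) := by
  obtain ⟨x, hx⟩ : ∃ x, x = -((Q - diagonal lam)⁻¹ *ᵥ 1) := ⟨_, rfl⟩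
  have h1 : ∀ i, lam i * x i - ∑ j, Q i j * x j = 1 := fun i => by
    have h : (Q - diagonal lam) *ᵥ x = -1 := by
      rw [hx, mulVec_neg, mulVec_mulVec, mul_nonsing_inv _ hC, one_mulVec]
    have := congrFun h i
    rw [sub_mulVec, Pi.sub_apply, mulVec_diagonal] at this
    simp only [mulVec, dotProduct, Pi.neg_apply, Pi.one_apply] at this
    linarith
  have h2 : ∀ f : Fin p → ℝ, ∑ i, π i * ∑ j, Q i j * f j = 0 := fun f => by
    have : ∀ j, ∑ i, π i * Q i j = 0 := fun j => congrFun hst j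
    simp only [mul_sum, ← mul_assoc]
    rw [sum_comm]
    simp only [← sum_mul, this, zero_mul, sum_const_zero]
  have h3 : ∑ i, π i * lam i * x i = 1 := by
    have : ∀ i, π i * lam i * x i = π i + π i * ∑ j, Q i j * x j := fun i => by
      linear_combination π i * h1 i
    simp only [this, sum_add_distrib, hπ.2, h2, add_zero]
  have h4 : ∑ i, π i * lam i * x i ^ 2 ≤ ∑ i, π i * x i := by
    have e : ∀ i, π i * lam i * x i ^ 2 = π i * x i + (1 / 2) * (π i * ∑ j, Q i j * x j ^ 2) -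
        (1 / 2) * (π i * ∑ j, Q i j * (x j - x i) ^ 2) := fun i => by
      have : ∑ j, Q i j * (x j - x i) ^ 2 = ∑ j, Q i j * x j ^ 2 - 2 * x i * ∑ j, Q i j * x j +
          x i ^ 2 * ∑ j, Q i j := by
        simp only [mul_sum, ← sum_sub_distrib, ← sum_add_distrib]
        exact sum_congr rfl fun j _ => by ring
      rw [this, hrow]
      linear_combination π i * x i * h1 i
    simp only [e, sum_add_distrib, sum_sub_distrib, ← mul_sum, h2]
    have : 0 ≤ ∑ i, π i * ∑ j, Q i j * (x j - x i) ^ 2 :=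
      sum_nonneg fun i _ => mul_nonneg (hπ.1 i) (sum_nonneg fun j _ => by
        by_cases h : i = j
        · simp [h]
        · exact mul_nonneg (hQ i j h) (sq_nonneg _))
    linarith
  have h5 := sum_sq_le_sum_mul_sum_of_sq_le_mul univ (r := fun i => π i * lam i * x i)
    (f := fun i => π i * lam i) (g := fun i => π i * lam i * x i ^ 2)
    (fun i _ => mul_nonneg (hπ.1 i) (hlam i))
    (fun i _ => mul_nonneg (mul_nonneg (hπ.1 i) (hlam i)) (sq_nonneg _)) (fun i _ => by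
      apply le_of_eq; ring)
  have h6 : π ᵥ* (Q - diagonal lam) ⬝ᵥ 1 = -∑ i, π i * lam i := by
    rw [vecMul_sub, hst]
    simp [dotProduct, vecMul_diagonal]
  have h7 : π ᵥ* (Q - diagonal lam)⁻¹ ⬝ᵥ 1 = -∑ i, π i * x i := by
    rw [← dotProduct_mulVec, hx]
    simp [dotProduct]
  rw [h6, h7, neg_mul_neg]
  rw [h3] at h5
  have h8 : 0 ≤ ∑ i, π i * lam i := sum_nonneg fun i _ => mul_nonneg (hπ.1 i) (hlam i)
  nlinarith [mul_le_mul_of_nonneg_left h4 h8]

end Pool.Agent.Results.MP_af8c33_pr.Scv
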